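import Pool.Agent.R243.HS.Diag

set_option autoImplicit false

/-!
# The tensor product Haar shift on planar indicator sets

The two-parameter Haar shift `T_[2] = T ⊗ T` on `L²(ℝ²)` exists and is unique, and for every `η < 1`
there is a measurable set `U ⊆ ℝ²` of finite positive measure (a union of the unit squares
`[i, i+1)²`, `0 ≤ i < 2^n`, on the diagonal) with `∫_U |T_[2] 1_U|² > η |U|`.
-/

open MeasureTheory

noncomputable section

namespace Pool.Agent.Results.MP_8c5903_an.TensorHaarShift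

/-- The dyadic interval `[k 2^j, (k+1) 2^j)`. Its left half is `dyadic (j-1) (2k)` and its right half
is `dyadic (j-1) (2k+1)`. -/
def dyadic (j k : ℤ) : Set ℝ := Set.Ico ((k : ℝ) * (2:ℝ) ^ j) (((k : ℝ) + 1) * (2:ℝ) ^ j)

/-- The Haar function `h_J = |J|^(-1/2) (1_{J_+} - 1_{J_-})` of `J = [k 2^j, (k+1) 2^j)`. -/
def haarFun (j k : ℤ) (x : ℝ) : ℝ :=
  (Real.sqrt ((2:ℝ) ^ j))⁻¹ * ((dyadic (j - 1) (2 * k + 1)).indicator (fun _ => (1:ℝ)) x -
    (dyadic (j - 1) (2 * k)).indicator (fun _ => (1:ℝ)) x)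

/-- The function `(h_J ⊗ h_{J'})(x₁, x₂) = h_J(x₁) h_{J'}(x₂)` for `J = [k 2^j, (k+1) 2^j)` and
`J' = [k' 2^j', (k'+1) 2^j')`. -/
def tensorFun (j k j' k' : ℤ) (p : ℝ × ℝ) : ℝ := haarFun j k p.1 * haarFun j' k' p.2

theorem memLp_tensorFun (j k j' k' : ℤ) : MemLp (tensorFun j k j' k') 2 volume :=
  Pool.Agent.R243.HS.memLp_haarFun2 j k j' k'

/-- The real Hilbert space `L²(ℝ²)`. -/
abbrev L2R2 : Type := Lp ℝ 2 (volume : Measure (ℝ × ℝ))

/-- `h_J ⊗ h_{J'}` as an element of `L²(ℝ²)`. -/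
def tensor (j k j' k' : ℤ) : L2R2 := (memLp_tensorFun j k j' k').toLp

/-- `T` is the operator `T_[2]`: `h_J ⊗ h_{J'}` is mapped to `T h_J ⊗ T h_{J'}`, where
`T h_{I_+} = h_{I_-}` and `T h_{I_-} = - h_{I_+}` for every dyadic interval `I`. The four lines are the
cases `J = I_±`, `J' = I'_±` for `I = [k 2^j, (k+1) 2^j)` and `I' = [k' 2^j', (k'+1) 2^j')`. -/
def IsTensorShift (T : L2R2 →L[ℝ] L2R2) : Prop :=
  ∀ j k j' k' : ℤ,
    T (tensor (j-1) (2*k+1) (j'-1) (2*k'+1)) = tensor (j-1) (2*k) (j'-1) (2*k') ∧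
    T (tensor (j-1) (2*k+1) (j'-1) (2*k')) = - tensor (j-1) (2*k) (j'-1) (2*k'+1) ∧
    T (tensor (j-1) (2*k) (j'-1) (2*k'+1)) = - tensor (j-1) (2*k+1) (j'-1) (2*k') ∧
    T (tensor (j-1) (2*k) (j'-1) (2*k')) = tensor (j-1) (2*k+1) (j'-1) (2*k'+1)

/-- `∫_U |T 1_U|² ≤ η |U|` fails for some measurable `U ⊆ ℝ²` with `0 < |U| < ∞`. -/
def BoundFails (T : L2R2 →L[ℝ] L2R2) (η : ℝ) : Prop :=
  ∃ (U : Set (ℝ × ℝ)) (hU : MeasurableSet U) (hfin : volume U ≠ ⊤), 0 < volume U ∧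
    η * (volume U).toReal < ∫ p in U, (T (indicatorConstLp 2 hU hfin (1:ℝ))) p ^ 2

/-- **Theorem.** There is exactly one operator `T_[2]`, and for every `η < 1` there is a measurable
set `U ⊆ ℝ²` with `0 < |U| < ∞` and `∫_U |T_[2] 1_U|² > η |U|`. -/
theorem result : (∃! T : L2R2 →L[ℝ] L2R2, IsTensorShift T) ∧
    ∀ T : L2R2 →L[ℝ] L2R2, IsTensorShift T → ∀ η : ℝ, η < 1 → BoundFails T η :=
  ⟨Pool.Agent.R243.HS.existsUnique_shift2, fun _ hT _ hη => Pool.Agent.R243.HS.shift2_sup hT hη⟩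

end Pool.Agent.Results.MP_8c5903_an.TensorHaarShift
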